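import Mathlib
import Pool.Agent.H.MP_dfc365_gt.A

namespace Pool.Agent.Results.MP_d23b2b_gt.CH

open Set Function Topology Filter TopologicalSpace Cardinal Pool.Agent.H.MP_dfc365_gt.A
open Pool.Agent.H.MP_44eb6b_gt.C (bnd)
open Pool.Agent.H.MP_3bc7a7_gt.A (J cI)

noncomputable def RR (e : ℕ → ℕ → ℝ) (W V : Finset ℕ) (t : W → ℝ) : ℝ :=
  sSup {r | ∃ n, (∀ j : W, t j ≤ e n j) ∧ ∀ i ∈ V, r ≤ e n i}

lemma cof {ρ : Y → ℝ} {en : J → ℕ → ℕ → ℝ} (he : Surjective en)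
    (h : ∀ a, ∀ ξ ≤ a, ∀ (W V : Finset ℕ) (t : W → J), (∀ j, t j < a) →
      ρ (.inr a) ≠ RR (en ξ) W V fun j => ρ (.inr (t j))) (V : Finset ℕ) :
    ∀ A : Set (ℕ → Y), ∃ B ⊆ A, B.Countable ∧ ∀ a ∈ A, ∃ b ∈ B, ∀ i ∈ V, ρ (a i) ≤ ρ (b i) := by
  classical
  induction V using Finset.strongInduction with | H V ih => ?_
  intro A
  rcases A.eq_empty_or_nonempty with rfl | ⟨a0, h0⟩
  · exact ⟨∅, subset_rfl, countable_empty, by simp⟩
  rcases V.eq_empty_or_nonempty with rfl | hV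
  · exact ⟨{a0}, by simpa, countable_singleton _, by simp⟩
  choose B b1 b2 b3 using fun q : {U // U ⊆ V ∧ U.Nonempty} × ℚ =>
    ih (V \ q.1) (Finset.sdiff_ssubset q.1.2.1 q.1.2.2) {a ∈ A | ∀ i ∈ q.1.1, q.2 < ρ (a i)}
  obtain ⟨f, hf⟩ := ((countable_iUnion b2).insert a0).exists_eq_range (insert_nonempty _ _)
  obtain ⟨ξ, hξ⟩ := he fun n i => ρ (f n i)
  have hc : (range Sum.inl ∪ Sum.inr '' Iic ξ : Set Y).Countable :=
    (countable_range _).union ((cI ξ).image _)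
  haveI := hc.to_subtype
  choose C c1 c2 c3 using fun q : V × (range Sum.inl ∪ Sum.inr '' Iic ξ : Set Y) =>
    ih (V.erase q.1) (Finset.erase_ssubset q.1.2) {a ∈ A | a q.1 = q.2}
  refine ⟨range f ∪ ⋃ q, C q, union_subset (hf ▸ insert_subset h0 (iUnion_subset fun q =>
    (b1 q).trans (sep_subset _ _))) (iUnion_subset fun q => (c1 q).trans (sep_subset _ _)),
    (countable_range _).union (countable_iUnion c2), fun a ha => ?_⟩
  by_cases k : ∃ i ∈ V, a i ∈ (range Sum.inl ∪ Sum.inr '' Iic ξ : Set Y)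
  · obtain ⟨i, i1, i2⟩ := k
    obtain ⟨b, l1, l2⟩ := c3 (⟨i, i1⟩, ⟨_, i2⟩) a ⟨ha, rfl⟩
    refine ⟨b, .inr (mem_iUnion.2 ⟨_, l1⟩), fun j hj => ?_⟩
    by_cases m : j = i
    · rw [m, (c1 _ l1).2]
    · exact l2 j (Finset.mem_erase.2 ⟨m, hj⟩)
  have : ∀ i, ∃ β, i ∈ V → a i = .inr β ∧ ξ < β := fun i => by
    by_cases l : i ∈ V
    · rcases m : a i with s | β
      · exact (k ⟨i, l, .inl ⟨s, m.symm⟩⟩).elim
      · exact ⟨β, fun _ => ⟨rfl, not_le.1 fun q => k ⟨i, l, .inr ⟨β, q, m.symm⟩⟩⟩⟩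
    · exact ⟨ξ, fun m => (l m).elim⟩
  choose t ht using this
  obtain ⟨i, i1, i2⟩ := V.exists_max_image t hV
  let U := V.filter (t · = t i)
  have u1 : ∀ j ∈ U, ρ (a j) = ρ (.inr (t i)) := fun j hj => by
    rw [Finset.mem_filter] at hj
    rw [(ht j hj.1).1, hj.2]
  by_contra! l
  have u2 : ∀ j : (V \ U : Finset ℕ), ρ (.inr (t j)) = ρ (a j) := fun j => by
    rw [(ht j (Finset.mem_sdiff.1 j.2).1).1]
  have u3 : ∀ q : ℚ, q < ρ (.inr (t i)) → (q : ℝ) ∈ {r | ∃ n, (∀ j : (V \ U : Finset ℕ),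
      ρ (.inr (t j)) ≤ en ξ n j) ∧ ∀ i ∈ U, r ≤ en ξ n i} := fun q hq => by
    obtain ⟨b, l1, l2⟩ := b3 (⟨U, Finset.filter_subset _ _, i, by simp [U, i1]⟩, q) a
      ⟨ha, fun j hj => u1 j hj ▸ hq⟩
    obtain ⟨n, rfl⟩ := hf.le (.inr (mem_iUnion.2 ⟨_, l1⟩))
    exact ⟨n, fun j => by rw [hξ, u2]; exact l2 j j.2, fun j hj => hξ ▸ ((b1 _ l1).2 j hj).le⟩
  refine h (t i) ξ (ht i i1).2.le (V \ U) U (fun j => t j) (fun j => ?_) (IsLUB.csSup_eq
    ⟨?_, fun r hr => le_of_forall_rat_lt_imp_le fun q hq => hr (u3 q hq)⟩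
    ((exists_rat_lt _).elim fun q hq => ⟨_, u3 q hq⟩)).symm
  · obtain ⟨j1, j2⟩ := Finset.mem_sdiff.1 j.2
    exact lt_of_le_of_ne (i2 j j1) fun m => j2 (Finset.mem_filter.2 ⟨j1, m⟩)
  · rintro r ⟨n, n1, n2⟩
    obtain ⟨j, j1, j2⟩ := l (f n) (.inl ⟨n, rfl⟩)
    rw [hξ] at n1 n2
    by_cases m : j ∈ U
    · exact (n2 j m).trans (u1 j m ▸ j2.le)
    · exact (j2.not_ge (u2 ⟨j, Finset.mem_sdiff.2 ⟨j1, m⟩⟩ ▸ n1 _)).elim

theorem result (h : continuum.{0} = aleph 1) : ∃ (X : Type) (_ : TopologicalSpace X),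
    T35Space X ∧ (∀ A : Set (X → ℝ), A ⊆ {f : X → ℝ | Continuous f} →
      ∃ D : Set (X → ℝ), D ⊆ A ∧ D.Countable ∧
        ∀ f ∈ A, ∃ u : ℕ → X → ℝ, (∀ k, u k ∈ D) ∧ Tendsto u atTop (𝓝 f)) ∧
    ¬ ∃ N : Set (Set (X → ℝ)), N.Countable ∧ (∀ n ∈ N, n ⊆ {f : X → ℝ | Continuous f}) ∧
      ∀ f : X → ℝ, Continuous f → ∀ U : Set (X → ℝ), IsOpen U → f ∈ U →
        ∃ n ∈ N, f ∈ n ∧ n ⊆ U := by
  classical
  obtain ⟨ι, -, i1, i2⟩ := (perfectSpace_iff_forall_not_isolated.2 inferInstance :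
    PerfectSpace ℝ).univ_perfect.exists_nat_bool_injection univ_nonempty
  obtain ⟨en⟩ : Nonempty (J ≃ (ℕ → ℕ → ℝ)) := Cardinal.eq.1 (by simp [← h, mk_real])
  let σ : Set ℕ → ℝ := fun S => ι fun i => decide (i ∈ S)
  have si : Injective σ := fun S T l => Set.ext fun i => by simpa using congrFun (i2 l) i
  obtain ⟨x, x1, x2, x3, x5, x4⟩ := tow h (fun a P => σ ⁻¹' range
    fun q : Iic a × Finset ℕ × Σ W : Finset ℕ, W → P =>
      RR (en q.1) q.2.2.1 q.2.1 fun j => σ (q.2.2.2 j)) fun a P hP => by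
    haveI := hP.to_subtype
    haveI := (cI a).to_subtype
    exact (countable_range _).preimage si
  let ρ : Y → ℝ := fun z => ι (pr x z)
  have ri : Injective ρ := i2.comp (pri x1 x2)
  have cf := cof (ρ := ρ) en.surjective fun a ξ l W V t ht k => x5 a
    ⟨(⟨ξ, l⟩, V, ⟨W, fun j => ⟨_, t j, ht j, rfl⟩⟩), k.symm⟩
  have ev : ∀ z : Y, ∀ U ∈ 𝓝 (ρ z), ∃ m, ∀ w, (∀ i < m, pr x w i = pr x z i) → ρ w ∈ U :=
    fun z U hU => by
      obtain ⟨u, hu⟩ := Pool.Agent.H.MP_44eb6b_gt.C.bas isOpen_interior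
        (mem_interior_iff_mem_nhds.2 (i1.continuousAt.preimage_mem_nhds hU))
      exact ⟨u.sup id + 1, fun w hw => interior_subset (s := ι ⁻¹' U) (hu _ fun i hi =>
        hw i (Nat.lt_succ_of_le (Finset.le_sup (f := id) hi)))⟩
  let c := fun a (z : Y) => decide (ρ z ≤ ρ (.inr a))
  letI : TopologicalSpace Y := .induced (fun z => Sum.elim (pr x z) (c · z)) inferInstance
  have e : IsEmbedding fun z : Y => Sum.elim (pr x z) (c · z) :=
    ⟨⟨rfl⟩, fun z w l => pri x1 x2 (funext fun i => congrFun l (.inl i))⟩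
  have nh : ∀ z : Y, ∀ U ∈ 𝓝 z, ∃ q : ℚ, q < ρ z ∧ ∀ w, q < ρ w → ρ w ≤ ρ z → w ∈ U := by
    intro z U hU
    obtain ⟨m, t, k⟩ := nb c z hU
    have o : IsOpen {y : ℕ → Bool | ∀ i ∈ Finset.range m, y i = pr x z i} :=
      Pool.Agent.H.MP_44eb6b_gt.C.opn _ (fun i (y : ℕ → Bool) => y i) _ continuous_apply
    obtain ⟨V, v1, v2⟩ := (i1.isClosedEmbedding i2).isInducing.isOpen_iff.1 o
    have : ∀ᶠ r in 𝓝 (ρ z), r ∈ V ∧ ∀ a ∈ t, ρ (.inr a) < ρ z → ρ (.inr a) < r :=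
      Eventually.and (v1.mem_nhds (v2.ge fun _ _ => rfl : pr x z ∈ ι ⁻¹' V))
        ((eventually_all_finset t).2 fun a _ => by
          by_cases l : ρ (.inr a) < ρ z
          · exact (lt_mem_nhds l).mono fun _ q _ => q
          · exact .of_forall fun _ q => (l q).elim)
    obtain ⟨l, l1, l2⟩ := exists_Ioc_subset_of_mem_nhds this (exists_lt _)
    obtain ⟨q, q1, q2⟩ := exists_rat_btwn l1
    refine ⟨q, q2, fun w w1 w2 => ?_⟩
    obtain ⟨r1, r2⟩ := l2 ⟨q1.trans w1, w2⟩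
    refine k w (fun i hi => (Set.ext_iff.1 v2 (pr x w)).1 r1 i (Finset.mem_range.2 hi)) fun a ha => ?_
    exact decide_eq_decide.2 ⟨fun l => not_lt.1 fun n => (r2 a ha n).not_ge l, w2.trans⟩
  refine ⟨Y, inferInstance, e.t35Space, fun S hS => ?_, fun ⟨N, n1, _, n2⟩ => ?_⟩
  · choose B b1 b2 b3 using fun q : Σ k, Fin k → countableBasis ℝ × ℚ => cf (Finset.range q.1)
      {a | ∃ f ∈ S, ∀ i : Fin q.1, (q.2 i).2 < ρ (a i) ∧
        ∀ w, (q.2 i).2 < ρ w → ρ w ≤ ρ (a i) → f w ∈ (q.2 i).1.1}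
    choose g g1 g2 using fun q (b : B q) => b1 q b.2
    haveI := fun q => (b2 q).to_subtype
    have hD : (⋃ q, range (g q)) ⊆ S := iUnion_subset fun q => range_subset_iff.2 (g1 q)
    refine ⟨_, hD, countable_iUnion fun q => countable_range _, fun f hf => fu x3 x4
      (nb2 c fun a s => ?_) (fun g hg => hS (hD hg)) (hS hf) (mem_closure_iff.2 fun U u1 u2 => ?_)⟩
    · rcases lt_or_gt_of_ne (ri.ne (show (.inl s : Y) ≠ .inr a by simp)) with l | l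
      · exact (ev _ _ (Iio_mem_nhds l)).imp fun m k w hw => by simp [c, l.le, (mem_Iio.1 (k w hw)).le]
      · exact (ev _ _ (Ioi_mem_nhds l)).imp fun m k w hw => by
          simp [c, l.not_ge, (mem_Ioi.1 (k w hw)).not_ge]
    obtain ⟨I, u, j1, j2⟩ := isOpen_pi_iff.1 u1 f u2
    let a : ℕ → Y := fun i => if h : i < I.card then I.equivFin.symm ⟨i, h⟩ else .inl ∅
    choose O o1 o2 o3 using fun z : I =>
      (isBasis_countableBasis ℝ).exists_subset_of_mem_open (j1 z z.2).2 (j1 z z.2).1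
    choose q q1 q2 using fun z : I => nh z _ ((hS hf).continuousAt.preimage_mem_nhds
      ((isOpen_of_mem_countableBasis (o1 z)).mem_nhds (o2 z)))
    obtain ⟨b, l1, l2⟩ := b3 ⟨I.card, fun i => (⟨O (I.equivFin.symm i), o1 _⟩, q (I.equivFin.symm i))⟩
      a ⟨f, hf, fun i => by simpa [a, -Sum.forall] using ⟨q1 _, q2 _⟩⟩
    refine ⟨_, j2 fun z hz => o3 ⟨z, hz⟩ ?_, mem_iUnion.2 ⟨_, ⟨b, l1⟩, rfl⟩⟩
    simpa using (g2 _ ⟨b, l1⟩ (I.equivFin ⟨z, hz⟩)).2 z (by simpa using q1 ⟨z, hz⟩)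
      (by simpa [a] using l2 (I.equivFin ⟨z, hz⟩) (by simp))
  · choose M m1 m2 m3 using fun a => n2 (fun z => if c a z then 1 else 0)
      ((continuous_of_discreteTopology (f := fun t : Bool => if t then (1 : ℝ) else 0)).comp
        ((continuous_apply (Sum.inr a)).comp e.continuous)) {g | 0 < g (.inr a)}
      (isOpen_lt continuous_const (continuous_apply _)) (by simp [c])
    have : Injective M := fun a b l => by
      have k1 := m3 b (l ▸ m2 a)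
      have k2 := m3 a (l ▸ m2 b)
      refine Sum.inr_injective (ri (le_antisymm ?_ ?_))
      · by_contra q; simp [c, q] at k2
      · by_contra q; simp [c, q] at k1
    obtain ⟨a, ha⟩ := bnd (n1.preimage this)
    exact (ha a (m1 a)).false

end Pool.Agent.Results.MP_d23b2b_gt.CH
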